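import Mathlib

set_option autoImplicit false

namespace Pool.Agent.Results.MP_d6b04a_al.Refines

variable {L : Type} [CompleteLattice L]

/-- `X` refines `Y` -/
def Ref (X Y : Finset L) : Prop := ∀ x ∈ X, ∃ y ∈ Y, x ≤ y

/-- `p` is compact -/
def Compact (p : L) : Prop :=
  ∀ D : Set L, D.Nonempty → DirectedOn (· ≤ ·) D → p ≤ sSup D → ∃ d ∈ D, p ≤ d

/-- `p` is a point: the set of elements strictly below `p` has a largest element -/
def Point (p : L) : Prop := ∃ q, IsGreatest {x | x < p} q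

/-- every element is a join of points -/
def Spatial (L : Type) [CompleteLattice L] : Prop :=
  ∀ a : L, ∃ S : Set L, (∀ p ∈ S, Point p) ∧ sSup S = a

/-- `E` is a minimal join-cover of `p` -/
def MinCover (p : L) (E : Finset L) : Prop :=
  p ≤ E.sup id ∧ ∀ X : Finset L, p ≤ X.sup id → Ref X E → E ⊆ X

open Finset

theorem one [IsModularLattice L] [DecidableEq L] (hL : Spatial L) {p : L} (hp : Compact p) (b e : L)
    (h : p ≤ b ⊔ e) : ∃ A : Finset L, (∀ u ∈ A, u ≤ e) ∧ p ≤ b ⊔ A.sup id ∧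
      ∀ u ∈ A, ∃ q, IsGreatest {x | x < u} q ∧ ¬ p ≤ b ⊔ (A.erase u).sup id ⊔ q := by
  obtain ⟨S, hS, hs⟩ := hL ((p ⊔ b) ⊓ e)
  have h1 : p ≤ b ⊔ (p ⊔ b) ⊓ e := by
    rw [inf_comm, ← sup_inf_assoc_of_le _ le_sup_right]
    exact le_inf h le_sup_left
  have hex : ∃ n, ∃ A : Finset L, A.card = n ∧ (A : Set L) ⊆ S ∧ p ≤ b ⊔ A.sup id := by
    obtain ⟨_, ⟨A, hA, rfl⟩, h2⟩ := hp {x | ∃ A : Finset L, (A : Set L) ⊆ S ∧ b ⊔ A.sup id = x}
      ⟨_, ∅, by simp, rfl⟩ (by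
        rintro _ ⟨A, hA, rfl⟩ _ ⟨B, hB, rfl⟩
        exact ⟨_, ⟨A ∪ B, by simp [hA, hB], rfl⟩, sup_le_sup_left (sup_mono subset_union_left) _,
          sup_le_sup_left (sup_mono subset_union_right) _⟩)
      (h1.trans (sup_le (le_sSup_of_le ⟨∅, by simp, rfl⟩ le_sup_left) (hs ▸ sSup_le fun x hx =>
        le_sSup_of_le ⟨{x}, by simpa using hx, rfl⟩ (by simp))))
    exact ⟨_, A, rfl, hA, h2⟩
  classical
  obtain ⟨A, hA, h2, h3⟩ := Nat.find_spec hex
  have h4 : ∀ u ∈ A, u ≤ (p ⊔ b) ⊓ e := fun u hu => hs ▸ le_sSup (h2 hu)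
  refine ⟨A, fun u hu => (h4 u hu).trans inf_le_right, h3, fun u hu => ?_⟩
  obtain ⟨q, hq⟩ := hS u (h2 hu)
  refine ⟨q, hq, fun h5 => ?_⟩
  have h6 : u ≤ q ⊔ (b ⊔ (A.erase u).sup id) := by
    rw [sup_comm]
    exact ((h4 u hu).trans inf_le_left).trans (sup_le h5 (le_sup_left.trans le_sup_left))
  have h7 : u ≤ b ⊔ (A.erase u).sup id := by
    by_contra h7
    have h8 : (b ⊔ (A.erase u).sup id) ⊓ u ≤ q :=
      hq.2 (lt_of_le_of_ne inf_le_right fun h => h7 (inf_eq_right.1 h))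
    have h9 := sup_inf_assoc_of_le (b ⊔ (A.erase u).sup id) hq.1.le
    rw [inf_eq_right.2 h6, sup_eq_left.2 h8] at h9
    exact hq.1.ne h9.symm
  refine Nat.find_min hex (m := (A.erase u).card) (hA ▸ card_erase_lt_of_mem hu)
    ⟨_, rfl, (coe_subset.2 (erase_subset _ _)).trans h2, h3.trans (sup_le le_sup_left ?_)⟩
  refine Finset.sup_le fun x hx => ?_
  by_cases h : x = u
  · exact h ▸ h7
  · exact le_sup_of_le_right (le_sup (f := id) (mem_erase.2 ⟨h, hx⟩))

theorem many [IsModularLattice L] [DecidableEq L] (hL : Spatial L) {p : L} (hp : Compact p)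
    (E : Finset L) : ∀ b : L, p ≤ b ⊔ E.sup id → ∃ A : Finset L, Ref A E ∧ p ≤ b ⊔ A.sup id ∧
      ∀ u ∈ A, ∃ q, IsGreatest {x | x < u} q ∧ ¬ p ≤ b ⊔ (A.erase u).sup id ⊔ q := by
  induction E using Finset.induction_on with
  | empty => exact fun b h => ⟨∅, by simp [Ref], h, by simp⟩
  | insert e E _ ih =>
    intro b h
    obtain ⟨A, a1, a2, a3⟩ := one hL hp (b ⊔ E.sup id) e (by
      rwa [sup_insert, id, sup_comm e, ← sup_assoc] at h)
    obtain ⟨B, b1, b2, b3⟩ := ih (b ⊔ A.sup id) (by rwa [sup_right_comm] at a2)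
    refine ⟨A ∪ B, fun x hx => ?_, by rwa [sup_union, ← sup_assoc], fun u hu => ?_⟩
    · rcases mem_union.1 hx with hx | hx
      · exact ⟨e, mem_insert_self _ _, a1 x hx⟩
      · obtain ⟨y, hy, h⟩ := b1 x hx
        exact ⟨y, mem_insert_of_mem hy, h⟩
    · rw [erase_union_distrib, sup_union, ← sup_assoc]
      rcases mem_union.1 hu with hu | hu
      · obtain ⟨q, hq, h⟩ := a3 u hu
        refine ⟨q, hq, fun h' => h (h'.trans (sup_le_sup_right ?_ _))⟩
        rw [sup_right_comm]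
        refine sup_le_sup_right (sup_le_sup_left (Finset.sup_le fun x hx => ?_) _) _
        obtain ⟨y, hy, h⟩ := b1 x (mem_of_mem_erase hx)
        exact h.trans (le_sup (f := id) hy)
      · obtain ⟨q, hq, h⟩ := b3 u hu
        exact ⟨q, hq, fun h' => h (h'.trans (sup_le_sup_right (sup_le_sup_right
          (sup_le_sup_left (sup_mono (erase_subset _ _)) _) _) _))⟩

theorem result (L : Type) [CompleteLattice L] [IsModularLattice L] (hL : Spatial L) (p : L)
    (hp : Compact p) (E : Finset L) (hE : p ≤ E.sup id) :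
    ∃ F : Finset L, MinCover p F ∧ Ref F E := by
  classical
  obtain ⟨A, h1, h2, h3⟩ := many hL hp E ⊥ (by simpa using hE)
  refine ⟨A, ⟨by simpa using h2, fun X hX hr u hu => ?_⟩, h1⟩
  by_contra hn
  obtain ⟨q, hq, h⟩ := h3 u hu
  refine h (hX.trans (Finset.sup_le fun x hx => ?_))
  obtain ⟨y, hy, hxy⟩ := hr x hx
  by_cases hyu : y = u
  · subst hyu
    exact le_sup_of_le_right (hq.2 (lt_of_le_of_ne hxy fun h => hn (h ▸ hx)))
  · exact le_sup_of_le_left (le_sup_of_le_right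
      (hxy.trans (le_sup (f := id) (mem_erase.2 ⟨hyu, hy⟩))))

end Pool.Agent.Results.MP_d6b04a_al.Refines
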